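import Pool.Agent.H17.SD.Targets

/-!
# MP_70ba79_ag, THEOREM S, chapter 1: the dimension of the forms in `u` (DMA)
-/

set_option autoImplicit false

namespace Pool.Agent.H19.SFG

open MvPolynomial SC Pool.Agent.H27.LV
open Pool.Agent.H92.SF Pool.Agent.H3.SF Pool.Agent.H17.SD

/-- the dimension of the space of forms (from H85/ND/BEZ) -/
theorem finrank_hom3 (k : Type) [Field k] (m : ℕ) :
    Module.finrank k (homogeneousSubmodule (Fin 3) k m) = (m + 2).choose 2 := by
  have h : homogeneousSubmodule (Fin 3) k m = restrictSupport k {d | d.degree = m} := by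
    rw [homogeneousSubmodule_eq_finsupp_supported]
    rfl
  rw [h, Module.finrank_eq_nat_card_basis (basisRestrictSupport k {d | d.degree = m})]
  have e : {d : Fin 3 →₀ ℕ | d.degree = m} ≃
      {f : Fin 3 →₀ ℕ // f ∈ (Finset.univ : Finset (Fin 3)).finsuppAntidiag m} := by
    refine Equiv.subtypeEquivRight fun d => ?_
    rw [Finset.mem_finsuppAntidiag, Set.mem_ofPred_eq, Finsupp.degree_eq_sum]
    simp
  rw [Nat.card_congr e, Nat.card_eq_fintype_card, Fintype.card_coe,
    Finset.card_finsuppAntidiag_nat_eq_choose, Finset.card_univ, Fintype.card_fin]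
  have h3 : 3 + m - 1 = m + 2 := by omega
  rw [h3, Nat.choose_symm_add]

section

variable {k F : Type} [Field k] [Field F] [Algebra k F]

/-- the Euler derivation of a polynomial -/
theorem euler_aeval {n : ℕ} (u : Fin n → F) (E : Derivation k F F) (hE : ∀ i, E (u i) = u i)
    (P : MvPolynomial (Fin n) k) :
    E (aeval u P) = aeval u (∑ i, X i * pderiv i P) := by
  induction P using MvPolynomial.induction_on with
  | C c =>
    rw [algHom_C, Derivation.map_algebraMap]
    simp
  | add p q hp hq =>
    rw [map_add, map_add, hp, hq, ← map_add, ← Finset.sum_add_distrib]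
    refine congrArg _ (Finset.sum_congr rfl fun i _ => ?_)
    rw [map_add, mul_add]
  | mul_X p j hp =>
    rw [map_mul, Derivation.leibniz, hp, aeval_X, hE, smul_eq_mul, smul_eq_mul]
    have h1 : ∑ i, X i * pderiv i (p * X j) = X j * (∑ i, X i * pderiv i p) + p * X j := by
      have h2 : ∀ i, X i * pderiv i (p * X j) =
          X j * (X i * pderiv i p) + (if i = j then p * X j else 0) := by
        intro i
        rw [Derivation.leibniz, smul_eq_mul, smul_eq_mul, pderiv_X]
        by_cases h : i = j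
        · subst h
          rw [Pi.single_eq_same, if_pos rfl]
          ring
        · rw [Pi.single_eq_of_ne (Ne.symm h), if_neg h]
          ring
      rw [Finset.sum_congr rfl fun i _ => h2 i, Finset.sum_add_distrib, ← Finset.mul_sum,
        Finset.sum_ite_eq' Finset.univ j, if_pos (Finset.mem_univ j)]
    rw [h1, map_add, map_mul, map_mul, aeval_X]
    ring

theorem hm_homog {n : ℕ} (u : Fin n → F) (E : Derivation k F F) (hE : ∀ i, E (u i) = u i)
    (P : MvPolynomial (Fin n) k) (t : ℕ) (hP : P.IsHomogeneous t) : Hm k E t (aeval u P) := by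
  unfold Hm
  rw [euler_aeval u E hE, hP.sum_X_mul_pderiv, map_nsmul, nsmul_eq_mul, Int.cast_natCast]

theorem mem_PA {n : ℕ} (u : Fin n → F) (a : F) :
    a ∈ PA k u ↔ ∃ P : MvPolynomial (Fin n) k, aeval u P = a := by
  show a ∈ Algebra.adjoin k (Set.range u) ↔ _
  rw [Algebra.adjoin_range_eq_range_aeval]
  exact Iff.rfl

end

theorem pf_DMA (h1 : T_HMP) : T_DMA := by
  intro k F _ _ _ _ u E hu hE
  refine ⟨fun t ht => ?_, fun t => ?_⟩
  · rw [Submodule.eq_bot_iff]
    rintro a ⟨ha, hm⟩
    obtain ⟨P, rfl⟩ := (mem_PA u a).1 ha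
    rw [(h1 k F (Fin 3) u hu E hE P t hm).2 ht, map_zero]
  · have hG : Gr (PA k u) E t = (homogeneousSubmodule (Fin 3) k t).map
        (aeval u : MvPolynomial (Fin 3) k →ₐ[k] F).toLinearMap := by
      refine le_antisymm ?_ ?_
      · rintro a ⟨ha, hm⟩
        obtain ⟨P, rfl⟩ := (mem_PA u a).1 ha
        exact ⟨P, (h1 k F (Fin 3) u hu E hE P t hm).1 t rfl, rfl⟩
      · rintro _ ⟨P, hP, rfl⟩
        exact ⟨(mem_PA u _).2 ⟨P, rfl⟩, hm_homog u E hE P t hP⟩
    have e := Submodule.equivMapOfInjective
      (aeval u : MvPolynomial (Fin 3) k →ₐ[k] F).toLinearMap hu (homogeneousSubmodule (Fin 3) k t)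
    have : Module.Finite k (homogeneousSubmodule (Fin 3) k t) :=
      Module.Finite.iff_fg.2 (homogeneousSubmodule_fg (Fin 3) k t)
    rw [hG]
    exact ⟨Module.Finite.equiv e, by rw [← LinearEquiv.finrank_eq e, finrank_hom3]⟩

end Pool.Agent.H19.SFG
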