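import Pool.Agent.H19.SFG.DMA

/-!
# MP_70ba79_ag, THEOREM S, chapter 1: the dimension of the forms in `u` and `θ` (DMB)
-/

set_option autoImplicit false

namespace Pool.Agent.H19.SFG

open MvPolynomial SC Pool.Agent.H27.LV
open Pool.Agent.H92.SF Pool.Agent.H3.SF Pool.Agent.H17.SD

section

variable {k F : Type} [Field k] [Field F] [Algebra k F]

theorem PA_le_kF {n : ℕ} (u : Fin n → F) {a : F} (ha : a ∈ PA k u) : a ∈ kF k u := by
  have h : (PA k u : Subalgebra k F) ≤ (kF k u).toSubalgebra := by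
    show Algebra.adjoin k (Set.range u) ≤ _
    rw [Algebra.adjoin_le_iff]
    exact IntermediateField.subset_adjoin k (Set.range u)
  exact h ha

/-- every element of `k[u, θ]` is a combination of powers of `θ` -/
theorem PB_rep {n : ℕ} (u : Fin n → F) (θ : F) (p : Polynomial (kF k u)) (hp : p.Monic)
    (hp0 : p.natDegree ≠ 0) (hθ : Polynomial.aeval θ p = 0) (hc : ∀ i, (p.coeff i : F) ∈ PA k u)
    (b : F) (hb : b ∈ PB k u θ) :
    ∃ c : Fin p.natDegree → F, (∀ i, c i ∈ PA k u) ∧ b = ∑ i, c i * θ ^ (i : ℕ) := by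
  obtain ⟨M, hM⟩ : ∃ M : Submodule (PA k u) F,
      M = Submodule.span (PA k u) (Set.range fun i : Fin p.natDegree => θ ^ (i : ℕ)) := ⟨_, rfl⟩
  have hpow : ∀ i : ℕ, i < p.natDegree → θ ^ i ∈ M := by
    intro i hi
    rw [hM]
    exact Submodule.subset_span ⟨⟨i, hi⟩, rfl⟩
  have htop : θ ^ p.natDegree ∈ M := by
    have h1 := hθ
    rw [Polynomial.aeval_eq_sum_range, Finset.sum_range_succ, hp.coeff_natDegree, one_smul] at h1
    have h2 : θ ^ p.natDegree = -∑ i ∈ Finset.range p.natDegree, p.coeff i • θ ^ i := by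
      linear_combination h1
    rw [h2]
    refine M.neg_mem (M.sum_mem fun i hi => ?_)
    exact M.smul_mem ⟨(p.coeff i : F), hc i⟩ (hpow i (Finset.mem_range.1 hi))
  have hmul : ∀ m ∈ M, θ * m ∈ M := by
    intro m hm
    rw [hM] at hm
    refine Submodule.span_induction ?_ ?_ ?_ ?_ hm
    · rintro _ ⟨i, rfl⟩
      show θ * θ ^ (i : ℕ) ∈ M
      rw [← pow_succ']
      rcases Nat.lt_or_ge ((i : ℕ) + 1) p.natDegree with h | h
      · exact hpow _ h
      · have h3 : (i : ℕ) + 1 = p.natDegree := le_antisymm i.2 h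
        rw [h3]
        exact htop
    · rw [mul_zero]
      exact M.zero_mem
    · intro x y _ _ hx hy
      rw [mul_add]
      exact M.add_mem hx hy
    · intro a x _ hx
      rw [mul_smul_comm]
      exact M.smul_mem a hx
  have hall : ∀ b ∈ PB k u θ, ∀ m ∈ M, b * m ∈ M := by
    intro b hb
    refine Algebra.adjoin_induction (p := fun b _ => ∀ m ∈ M, b * m ∈ M) ?_ ?_ ?_ ?_ hb
    · intro x hx m hm
      rcases hx with hx | hx
      · rw [hx]
        exact hmul m hm
      · exact M.smul_mem ⟨x, Algebra.subset_adjoin hx⟩ hm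
    · intro r m hm
      exact M.smul_mem ⟨algebraMap k F r, (PA k u).algebraMap_mem r⟩ hm
    · intro x y _ _ hx hy m hm
      rw [add_mul]
      exact M.add_mem (hx m hm) (hy m hm)
    · intro x y _ _ hx hy m hm
      rw [mul_assoc]
      exact hx _ (hy m hm)
  have hone : (1 : F) ∈ M := by
    have h1 := hpow 0 (Nat.pos_of_ne_zero hp0)
    rwa [pow_zero] at h1
  have hbM := hall b hb 1 hone
  rw [mul_one, hM, Submodule.mem_span_range_iff_exists_fun] at hbM
  obtain ⟨c, hc'⟩ := hbM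
  refine ⟨fun i => (c i : F), fun i => (c i).2, ?_⟩
  rw [← hc']
  rfl

end

theorem pf_DMB (_h1 : T_ITA) (h2 : T_MPC) (_h3 : T_HMP) (h4 : T_DMA) : T_DMB := by
  intro k F _ _ _ _ u θ E hu hfin hgen hint hE hEθ
  have hEu : ∀ i, E (u i) = u i := hE
  have hcf := h2 k F (Fin 3) u hu θ hint
  have hii : IsIntegral (kF k u) θ := IsIntegral.of_finite (kF k u) θ
  obtain ⟨p, hp⟩ : ∃ p, p = minpoly (kF k u) θ := ⟨_, rfl⟩
  have hmon : p.Monic := by rw [hp]; exact minpoly.monic hii
  have hdeg : p.natDegree ≠ 0 := by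
    rw [hp]
    exact (minpoly.natDegree_pos hii).ne'
  have hroot : Polynomial.aeval θ p = 0 := by rw [hp]; exact minpoly.aeval _ _
  have hcPA : ∀ i, (p.coeff i : F) ∈ PA k u := by
    intro i
    obtain ⟨P, hP⟩ := hcf i
    rw [hp, hP]
    exact (mem_PA u _).2 ⟨P, rfl⟩
  have hli : LinearIndependent (kF k u) fun i : Fin p.natDegree => θ ^ (i : ℕ) := by
    rw [hp]
    exact linearIndependent_pow θ
  have hfr : Module.finrank (kF k u) F = p.natDegree := by
    have h5 := IntermediateField.adjoin.finrank hii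
    rw [hgen, IntermediateField.finrank_top'] at h5
    rw [h5, hp]
  have hEPA : ∀ a ∈ PA k u, E a ∈ PA k u := by
    intro a ha
    obtain ⟨P, rfl⟩ := (mem_PA u a).1 ha
    rw [euler_aeval u E hEu]
    exact (mem_PA u _).2 ⟨_, rfl⟩
  have hEpow : ∀ i : ℕ, E (θ ^ i) = (i : F) * θ ^ i := by
    intro i
    induction i with
    | zero => simp
    | succ i ih =>
      rw [pow_succ, Derivation.leibniz, ih, hEθ, smul_eq_mul, smul_eq_mul]
      push_cast
      ring
  have hHm : ∀ (c : Fin p.natDegree → F) (t : ℤ), (∀ i, c i ∈ PA k u) →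
      Hm k E t (∑ i, c i * θ ^ (i : ℕ)) →
      ∀ i : Fin p.natDegree, Hm k E (t - ((i : ℕ) : ℤ)) (c i) := by
    intro c t hc hm i
    unfold Hm at hm ⊢
    have h5 : ∑ i : Fin p.natDegree, (E (c i) + ((i : ℕ) : F) * c i - (t : F) * c i) *
        θ ^ (i : ℕ) = 0 := by
      have h6 : E (∑ i : Fin p.natDegree, c i * θ ^ (i : ℕ)) =
          ∑ i : Fin p.natDegree, (E (c i) + ((i : ℕ) : F) * c i) * θ ^ (i : ℕ) := by
        rw [map_sum]
        refine Finset.sum_congr rfl fun i _ => ?_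
        rw [Derivation.leibniz, hEpow, smul_eq_mul, smul_eq_mul]
        ring
      rw [h6, Finset.mul_sum, ← sub_eq_zero, ← Finset.sum_sub_distrib] at hm
      rw [← hm]
      refine Finset.sum_congr rfl fun i _ => ?_
      ring
    have hmem : ∀ i, E (c i) + ((i : ℕ) : F) * c i - (t : F) * c i ∈ kF k u := by
      intro i
      have h7 := PA_le_kF u (hEPA _ (hc i))
      have h8 := PA_le_kF u (hc i)
      exact sub_mem (add_mem h7 (mul_mem (natCast_mem _ _) h8)) (mul_mem (intCast_mem _ _) h8)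
    have h9 := (Fintype.linearIndependent_iff.1 hli) (fun i => ⟨_, hmem i⟩) (by
      rw [← h5]
      rfl) i
    have h10 : E (c i) + ((i : ℕ) : F) * c i - (t : F) * c i = 0 := congrArg Subtype.val h9
    push_cast
    linear_combination h10
  have hrep : ∀ b ∈ PB k u θ, ∃ c : Fin p.natDegree → F, (∀ i, c i ∈ PA k u) ∧
      b = ∑ i, c i * θ ^ (i : ℕ) := fun b hb => PB_rep u θ p hmon hdeg hroot hcPA b hb
  obtain ⟨hneg, hpos⟩ := h4 k F u E hu hEu
  refine ⟨fun t ht => ?_, fun t => ?_⟩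
  · rw [Submodule.eq_bot_iff]
    rintro b ⟨hb, hm⟩
    obtain ⟨c, hc, rfl⟩ := hrep b hb
    refine Finset.sum_eq_zero fun i _ => ?_
    have h5 : c i ∈ Gr (PA k u) E (t - ((i : ℕ) : ℤ)) := ⟨hc i, hHm c t hc hm i⟩
    rw [hneg _ (by omega), Submodule.mem_bot] at h5
    rw [h5, zero_mul]
  · let Ψ : ((i : Fin p.natDegree) → Gr (PA k u) E ((t : ℤ) - ((i : ℕ) : ℤ))) →ₗ[k] F :=
      ∑ i : Fin p.natDegree, (LinearMap.mulRight k (θ ^ (i : ℕ))) ∘ₗ
        (Submodule.subtype _) ∘ₗ (LinearMap.proj i)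
    have hΨ : ∀ c, Ψ c = ∑ i, (c i : F) * θ ^ (i : ℕ) := by
      intro c
      simp [Ψ]
    have hinj : Function.Injective Ψ := by
      rw [← LinearMap.ker_eq_bot, LinearMap.ker_eq_bot']
      intro c hc
      rw [hΨ] at hc
      funext i
      have h9 := (Fintype.linearIndependent_iff.1 hli)
        (fun i => ⟨(c i : F), PA_le_kF u (c i).2.1⟩) (by
          rw [← hc]
          rfl) i
      have h10 : (c i : F) = 0 := congrArg Subtype.val h9
      exact Subtype.ext h10
    have hran : LinearMap.range Ψ = Gr (PB k u θ) E t := by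
      refine le_antisymm ?_ ?_
      · rintro _ ⟨c, rfl⟩
        rw [hΨ]
        refine Submodule.sum_mem _ fun i _ => ⟨?_, ?_⟩
        · refine (PB k u θ).mul_mem ?_ ((PB k u θ).pow_mem ?_ _)
          · exact Algebra.adjoin_mono (Set.subset_insert _ _) (c i).2.1
          · exact Algebra.subset_adjoin (Set.mem_insert _ _)
        · have h5 : E (c i : F) = (((t : ℤ) - ((i : ℕ) : ℤ) : ℤ) : F) * (c i : F) := (c i).2.2
          unfold Hm
          rw [Derivation.leibniz, hEpow, smul_eq_mul, smul_eq_mul, h5]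
          push_cast
          ring
      · rintro b ⟨hb, hm⟩
        obtain ⟨c, hc, rfl⟩ := hrep b hb
        refine ⟨fun i => ⟨c i, hc i, hHm c t hc hm i⟩, ?_⟩
        rw [hΨ]
    have hfi : ∀ i : Fin p.natDegree, Module.Finite k (Gr (PA k u) E ((t : ℤ) - ((i : ℕ) : ℤ))) ∧
        Module.finrank k (Gr (PA k u) E ((t : ℤ) - ((i : ℕ) : ℤ))) =
          if (i : ℕ) ≤ t then (t - i + 2).choose 2 else 0 := by
      intro i
      by_cases h : (i : ℕ) ≤ t
      · have h5 : (t : ℤ) - ((i : ℕ) : ℤ) = ((t - (i : ℕ) : ℕ) : ℤ) := by omega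
        rw [if_pos h, h5]
        exact hpos (t - i)
      · rw [if_neg h, hneg _ (by omega)]
        exact ⟨inferInstance, finrank_bot k F⟩
    have : ∀ i : Fin p.natDegree, Module.Finite k (Gr (PA k u) E ((t : ℤ) - ((i : ℕ) : ℤ))) :=
      fun i => (hfi i).1
    have hfin1 : Module.Finite k ((i : Fin p.natDegree) →
        Gr (PA k u) E ((t : ℤ) - ((i : ℕ) : ℤ))) := Module.Finite.pi
    rw [← hran]
    refine ⟨Module.Finite.range Ψ, ?_⟩
    rw [LinearMap.finrank_range_of_inj hinj, Module.finrank_pi_fintype, hfr,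
      Finset.sum_range fun i => if i ≤ t then (t - i + 2).choose 2 else 0]
    exact Finset.sum_congr rfl fun i _ => (hfi i).2

end Pool.Agent.H19.SFG
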