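import Pool.Agent.H17.SD.Targets

/-!
# MP_70ba79_ag, THEOREM S, chapter 1: Noether normalisation by linear forms (NN)
-/

set_option autoImplicit false

namespace Pool.Agent.H19.SFG

open MvPolynomial SC Pool.Agent.H27.LV
open Pool.Agent.H92.SF Pool.Agent.H3.SF Pool.Agent.H17.SD

section

variable {k F : Type} [Field k] [Field F] [Algebra k F]

/-- transitivity of integrality -/
theorem nn_trans (h1 : T_ITA) {n r : ℕ} (X' : Fin n → F) (u : Fin r → F)
    (h : ∀ i, Itg k u (X' i)) (x : F) (hx : Itg k X' x) : Itg k u x := by
  rw [h1]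
  obtain ⟨p, hp, hpx⟩ := hx
  let A : Subalgebra (PA k u) F := integralClosure (PA k u) F
  have hA : ∀ i, X' i ∈ A := fun i => (h1 k F (Fin r) u (X' i)).1 (h i)
  let g : MvPolynomial (Fin n) k →ₐ[k] A := aeval fun i => (⟨X' i, hA i⟩ : A)
  have hg : (algebraMap A F).comp (g : MvPolynomial (Fin n) k →+* A) =
      ((aeval X' : MvPolynomial (Fin n) k →ₐ[k] F) : MvPolynomial (Fin n) k →+* F) := by
    refine MvPolynomial.ringHom_ext (fun c => ?_) (fun i => ?_)
    · have e1 : g (C c) = algebraMap k A c := g.commutes c
      show algebraMap A F (g (C c)) = aeval X' (C c)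
      rw [e1, aeval_C]
      rfl
    · have e1 : g (X i) = (⟨X' i, hA i⟩ : A) := aeval_X _ i
      show algebraMap A F (g (X i)) = aeval X' (X i)
      rw [e1, aeval_X]
      rfl
  have hxA : IsIntegral A x := by
    refine ⟨p.map (g : MvPolynomial (Fin n) k →+* A), hp.map _, ?_⟩
    rw [Polynomial.eval₂_map, hg]
    exact hpx
  exact isIntegral_trans (R := PA k u) (A := A) x hxA

/-- linear substitutions and homogeneous components -/
theorem nn_hc {n m : ℕ} (l : Fin n → MvPolynomial (Fin m) k) (hl : ∀ i, (l i).IsHomogeneous 1)
    (f : MvPolynomial (Fin n) k) (d : ℕ) :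
    homogeneousComponent d (aeval l f) = aeval l (homogeneousComponent d f) := by
  have h0 : ∀ j, (aeval l (homogeneousComponent j f)).IsHomogeneous j := by
    intro j
    have h := (homogeneousComponent_isHomogeneous j f).aeval l hl
    rwa [one_mul] at h
  have h1 : aeval l f = ∑ j ∈ Finset.range (f.totalDegree + 1),
      aeval l (homogeneousComponent j f) := by
    rw [← map_sum, sum_homogeneousComponent]
  rw [h1, map_sum]
  have h2 : ∀ j, homogeneousComponent d (aeval l (homogeneousComponent j f)) =
      if d = j then aeval l (homogeneousComponent j f) else 0 := by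
    intro j
    exact homogeneousComponent_of_mem (h0 j)
  rw [Finset.sum_congr rfl fun j _ => h2 j, Finset.sum_ite_eq]
  split_ifs with h
  · rfl
  · rw [Finset.mem_range] at h
    rw [homogeneousComponent_eq_zero _ _ (by omega), map_zero]

end

theorem pf_NN (h1 : T_ITA) (h2 : T_NN1) : T_NN := by
  intro k F _ _ _ _ n
  induction n with
  | zero =>
    intro X _
    refine ⟨0, X, ?_, fun l => l.elim0, fun s => s.elim0⟩
    rw [algebraicIndependent_empty_type_iff]
    exact (algebraMap k F).injective
  | succ n ih =>
    intro X hX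
    by_cases hind : AlgebraicIndependent k X
    · refine ⟨n + 1, X, hind, fun l => Submodule.subset_span ⟨l, rfl⟩, fun s => ?_⟩
      rw [h1]
      exact isIntegral_algebraMap (R := PA k X) (x := ⟨X s, Algebra.subset_adjoin ⟨s, rfl⟩⟩)
    · rw [algebraicIndependent_iff] at hind
      push Not at hind
      obtain ⟨f, hf0, hf⟩ := hind
      obtain ⟨d, hd⟩ : ∃ d, homogeneousComponent d f ≠ 0 := by
        by_contra h
        push Not at h
        refine hf ?_
        rw [← sum_homogeneousComponent f]
        exact Finset.sum_eq_zero fun j _ => h j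
      obtain ⟨c, hc⟩ := h2 k F n X (homogeneousComponent d f) d
        (homogeneousComponent_isHomogeneous d f) hd (hX f hf0 d)
      obtain ⟨X', hX'⟩ : ∃ X' : Fin n → F, X' = fun i => X i.castSucc - c i • X (Fin.last n) :=
        ⟨_, rfl⟩
      rw [← hX'] at hc
      obtain ⟨l, hl⟩ : ∃ l : Fin n → MvPolynomial (Fin (n + 1)) k,
          l = fun i => MvPolynomial.X i.castSucc - C (c i) * MvPolynomial.X (Fin.last n) :=
        ⟨_, rfl⟩
      have hlh : ∀ i, (l i).IsHomogeneous 1 := by
        intro i
        rw [hl]
        refine (isHomogeneous_X k _).sub ?_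
        have h := (isHomogeneous_C (Fin (n + 1)) (c i)).mul (isHomogeneous_X k (Fin.last n))
        rwa [zero_add] at h
      have hcomp : ∀ P : MvPolynomial (Fin n) k, aeval X (aeval l P) = aeval X' P := by
        intro P
        rw [← AlgHom.comp_apply, comp_aeval]
        refine congrArg (fun f : Fin n → F => aeval f P) (funext fun i => ?_)
        rw [hl, hX', map_sub, map_mul, aeval_X, aeval_X, aeval_C]
        show _ = X i.castSucc - c i • X (Fin.last n)
        rw [Algebra.smul_def]
      have hrel : HRel k X' := by
        intro P hP j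
        have h3 : aeval X (aeval l P) = 0 := by rw [hcomp, hP]
        have h4 := hX _ h3 j
        rw [nn_hc l hlh, hcomp] at h4
        exact h4
      obtain ⟨r, u, hu, hspan, hint⟩ := ih X' hrel
      have hX'mem : ∀ i, X' i ∈ Submodule.span k (Set.range X) := by
        intro i
        rw [hX']
        exact Submodule.sub_mem _ (Submodule.subset_span ⟨_, rfl⟩)
          (Submodule.smul_mem _ _ (Submodule.subset_span ⟨_, rfl⟩))
      have hle : Submodule.span k (Set.range X') ≤ Submodule.span k (Set.range X) := by
        rw [Submodule.span_le]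
        rintro _ ⟨i, rfl⟩
        exact hX'mem i
      have hlast : Itg k u (X (Fin.last n)) := nn_trans h1 X' u hint _ hc
      refine ⟨r, u, hu, fun l => hle (hspan l), fun s => ?_⟩
      refine Fin.lastCases hlast (fun i => ?_) s
      have h5 : X i.castSucc = X' i + c i • X (Fin.last n) := by
        rw [hX']
        ring
      rw [h5]
      exact (Bb k u).add_mem (hint i) ((Bb k u).smul_mem hlast (c i))

end Pool.Agent.H19.SFG
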