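import Pool.Agent.H19.SFG.DMA

/-!
# MP_70ba79_ag, THEOREM S, chapter 1: a multiple of `qd` in `k[u]` (QDH)
-/

set_option autoImplicit false

namespace Pool.Agent.H19.SFG

open MvPolynomial SC Pool.Agent.H27.LV
open Pool.Agent.H92.SF Pool.Agent.H3.SF Pool.Agent.H17.SD

section

variable {k F : Type} [Field k] [Field F] [Algebra k F]

theorem itg_u {n : ℕ} (u : Fin n → F) (i : Fin n) : Itg k u (u i) := by
  have h := ((aeval u : MvPolynomial (Fin n) k →ₐ[k] F) :
    MvPolynomial (Fin n) k →+* F).isIntegralElem_map (x := X i)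
  unfold Itg
  have e : ((aeval u : MvPolynomial (Fin n) k →ₐ[k] F) : MvPolynomial (Fin n) k →+* F) (X i) =
      u i := aeval_X u i
  rwa [e] at h

theorem PB_le_Bb {n : ℕ} (u : Fin n → F) (θ : F) (hθ : Itg k u θ) {a : F}
    (ha : a ∈ PB k u θ) : Itg k u a := by
  have h : (PB k u θ : Subalgebra k F) ≤ Bb k u := by
    show Algebra.adjoin k (insert θ (Set.range u)) ≤ _
    rw [Algebra.adjoin_le_iff]
    intro x hx
    rcases hx with hx | ⟨i, rfl⟩
    · rw [hx]
      exact hθ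
    · exact itg_u u i
  exact h ha

theorem hm_mul {E : Derivation k F F} {s t : ℤ} {a b : F} (ha : Hm k E s a) (hb : Hm k E t b) :
    Hm k E (s + t) (a * b) := by
  unfold Hm at *
  rw [Derivation.leibniz, ha, hb, smul_eq_mul, smul_eq_mul]
  push_cast
  ring

theorem hm_pow {E : Derivation k F F} {a : F} (ha : Hm k E 1 a) (i : ℕ) :
    Hm k E i (a ^ i) := by
  induction i with
  | zero =>
    unfold Hm
    simp
  | succ i ih =>
    rw [pow_succ]
    have h := hm_mul ih ha
    push_cast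
    exact h

theorem hm_sum {ι : Type} {E : Derivation k F F} {t : ℤ} (s : Finset ι) (f : ι → F)
    (h : ∀ i ∈ s, Hm k E t (f i)) : Hm k E t (∑ i ∈ s, f i) := by
  unfold Hm at *
  rw [map_sum, Finset.mul_sum]
  exact Finset.sum_congr rfl h

theorem hm_nat {E : Derivation k F F} {t : ℤ} {a : F} (ha : Hm k E t a) (n : ℕ) :
    Hm k E t ((n : F) * a) := by
  unfold Hm at *
  rw [Derivation.leibniz, ha, Derivation.map_natCast, smul_eq_mul, smul_zero, add_zero]
  ring

end

theorem pf_QDH (_h1 : T_ITA) (h2 : T_MPC) (h3 : T_MPH) (h4 : T_HMP) : T_QDH := by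
  intro k F _ _ _ _ u θ E hu hfin hint hE hEθ hq0 hqB
  obtain ⟨p, hp⟩ : ∃ p, p = minpoly (kF k u) θ := ⟨_, rfl⟩
  have hii : IsIntegral (kF k u) θ := IsIntegral.of_finite (kF k u) θ
  have hn1 : 0 < p.natDegree := by
    rw [hp]
    exact minpoly.natDegree_pos hii
  have hθm : Hm k E 1 θ := by
    unfold Hm
    rw [hEθ]
    push_cast
    rw [one_mul]
  have hqm : Hm k E ((p.natDegree : ℤ) - 1) (qd k u θ) := by
    unfold qd
    rw [← hp, Polynomial.aeval_eq_sum_range]
    refine hm_sum _ _ fun i _ => ?_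
    rw [Polynomial.coeff_derivative]
    have h5 := h3 k F (Fin 3) u E hE θ 1 hii.isAlgebraic hθm (i + 1)
    rw [← hp] at h5
    have h6 := hm_mul (hm_nat h5 (i + 1)) (hm_pow hθm i)
    have e1 : ((p.natDegree : ℤ) - ((i + 1 : ℕ) : ℤ)) * 1 + (i : ℤ) = (p.natDegree : ℤ) - 1 := by
      push_cast
      ring
    rw [e1] at h6
    have e2 : (p.coeff (i + 1) * ((i : kF k u) + 1)) • θ ^ i =
        (((i + 1 : ℕ) : F) * (p.coeff (i + 1) : F)) * θ ^ i := by
      rw [Algebra.smul_def, map_mul, map_add, map_one, map_natCast]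
      push_cast
      show (p.coeff (i + 1) : F) * _ * _ = _
      ring
    rw [e2]
    exact h6
  have hqi : Itg k u (qd k u θ) := PB_le_Bb u θ hint hqB
  obtain ⟨q, hq⟩ : ∃ q, q = minpoly (kF k u) (qd k u θ) := ⟨_, rfl⟩
  have hqii : IsIntegral (kF k u) (qd k u θ) := IsIntegral.of_finite (kF k u) _
  have hcf := h2 k F (Fin 3) u hu _ hqi
  rw [← hq] at hcf
  obtain ⟨P, hP⟩ := hcf 0
  have hP0 : P ≠ 0 := by
    intro h
    rw [h, map_zero] at hP
    have h5 := minpoly.coeff_zero_ne_zero hqii hq0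
    rw [← hq] at h5
    exact h5 (Subtype.ext hP)
  have hPm := h3 k F (Fin 3) u E hE _ _ hqii.isAlgebraic hqm 0
  rw [← hq, hP] at hPm
  have hPh := (h4 k F (Fin 3) u hu E hE P _ hPm).1 (q.natDegree * (p.natDegree - 1)) (by
    rw [Nat.cast_mul, Nat.cast_sub hn1]
    push_cast
    ring)
  refine ⟨P, _, hP0, hPh, -∑ j ∈ Finset.range q.natDegree, (q.coeff (j + 1) : F) *
    qd k u θ ^ j, ?_, ?_⟩
  · refine (PB k u θ).neg_mem ((PB k u θ).sum_mem fun j _ => ?_)
    refine (PB k u θ).mul_mem ?_ ((PB k u θ).pow_mem hqB _)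
    obtain ⟨R, hR⟩ := hcf (j + 1)
    rw [hR]
    exact Algebra.adjoin_mono (Set.subset_insert _ _) ((mem_PA u _).2 ⟨R, rfl⟩)
  · have h5 : Polynomial.aeval (qd k u θ) q = 0 := by rw [hq]; exact minpoly.aeval _ _
    rw [Polynomial.aeval_eq_sum_range, Finset.sum_range_succ'] at h5
    rw [← hP]
    have h6 : ∀ j : ℕ, q.coeff j • qd k u θ ^ j = (q.coeff j : F) * qd k u θ ^ j := fun j => rfl
    simp only [h6] at h5
    rw [pow_zero, mul_one] at h5
    have h7 : ∑ j ∈ Finset.range q.natDegree, (q.coeff (j + 1) : F) * qd k u θ ^ (j + 1) =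
        qd k u θ * ∑ j ∈ Finset.range q.natDegree, (q.coeff (j + 1) : F) * qd k u θ ^ j := by
      rw [Finset.mul_sum]
      refine Finset.sum_congr rfl fun j _ => ?_
      ring
    rw [h7] at h5
    linear_combination h5

end Pool.Agent.H19.SFG
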